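import Pool.Agent.Helper14.TT.StF

/-!
# Project TT, module N4W: `f(z + 1/2) = -f(z)` for root number `w`
-/

set_option autoImplicit false

open UpperHalfPlane CongruenceSubgroup
open scoped MatrixGroups

namespace Pool.Agent.Helper8.TT

open Pool.Agent.Helper14.TT Pool.Agent.Helper14.CV
open Pool.Agent.Helper76.TX (RootNum Sg)

private theorem im_W (r : ℝ) (hr : 0 < r) (z : ℂ) (hz : 0 < z.im) :
    0 < (-1 / ((r : ℂ) * z)).im := by
  have hw : 0 < ((r : ℂ) * z).im := by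
    rw [Complex.im_ofReal_mul r z]
    exact mul_pos hr hz
  have hw0 : (r : ℂ) * z ≠ 0 := by
    intro h0
    rw [h0, Complex.zero_im] at hw
    exact lt_irrefl _ hw
  have e : -1 / ((r : ℂ) * z) = -((r : ℂ) * z)⁻¹ := by ring
  rw [e, Complex.neg_im, Complex.inv_im]
  have hn : 0 < Complex.normSq ((r : ℂ) * z) := Complex.normSq_pos.2 hw0
  have : 0 < ((r : ℂ) * z).im / Complex.normSq ((r : ℂ) * z) := div_pos hw hn
  have e2 : -(-((r : ℂ) * z).im / Complex.normSq ((r : ℂ) * z)) =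
      ((r : ℂ) * z).im / Complex.normSq ((r : ℂ) * z) := by ring
  rw [e2]
  exact this

private theorem core (hN2 : StN2) (hN3 : StN3) (c : ℂ) (hc : c ≠ 0) (m : ℕ) (hm : 1 ≤ m) (K : ℕ)
    (hK : K = 2 * 2 ^ m) (f : CuspForm (G0 K) 2)
    (hecke : ∀ p : ℕ, p.Prime → p ≠ 2 → HeckeEig f p (fc f p))
    (new : ∀ g : CuspForm (G0 (2 ^ m)) 2,
      (∀ p : ℕ, p.Prime → p ≠ 2 → HeckeEig g p (fc f p)) → g = 0)
    (hW : ∀ z : ℂ, 0 < z.im → fz f (-1 / (K * z)) = -(c * (K * z ^ 2 * fz f z))) :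
    ∀ z : ℂ, 0 < z.im → fz f (z + 1 / 2) = -fz f z := by
  subst hK
  have hne : NeZero (2 ^ m) := ⟨by positivity⟩
  have h2 : 2 ∣ 2 ^ m := dvd_pow_self 2 (by omega)
  obtain ⟨g, hg⟩ := hN2 (2 ^ m) hne f h2
  have hg0 : g = 0 := by
    refine new g fun p hp hp2 => ?_
    refine hN3 (2 ^ m) hne f g p _ h2 hp ?_ (hecke p hp hp2) hg
    intro hd
    rw [← pow_succ'] at hd
    exact hp2 ((Nat.prime_dvd_prime_iff_eq hp Nat.prime_two).1 (hp.dvd_of_dvd_pow hd))
  intro z hz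
  set N : ℂ := ((2 * 2 ^ m : ℕ) : ℂ) with hN
  set M : ℂ := ((2 ^ m : ℕ) : ℂ) with hM
  have hNM : N = 2 * M := by rw [hN, hM]; push_cast; ring
  have hM0 : M ≠ 0 := by
    rw [hM]
    push_cast
    exact pow_ne_zero _ two_ne_zero
  have hN0 : N ≠ 0 := by rw [hNM]; exact mul_ne_zero two_ne_zero hM0
  have hz0 : z ≠ 0 := by
    intro h0
    rw [h0, Complex.zero_im] at hz
    exact lt_irrefl _ hz
  set z' : ℂ := z + 1 / 2 with hz'
  have hz'im : 0 < z'.im := by
    have e : z'.im = z.im := by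
      rw [hz', Complex.add_im]
      norm_num
    rw [e]
    exact hz
  have hz'0 : z' ≠ 0 := by
    intro h0
    rw [h0, Complex.zero_im] at hz'im
    exact lt_irrefl _ hz'im
  set w : ℂ := -1 / (N * z') with hw
  have hwim : 0 < w.im := by
    have := im_W ((2 * 2 ^ m : ℕ) : ℝ) (by positivity) z' hz'im
    rw [hw, hN]
    exact_mod_cast this
  have e1 : M * w + 1 = z / z' := by
    rw [hw, hNM]
    field_simp
    rw [hz']
    ring
  have hMw : M * w + 1 ≠ 0 := by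
    rw [e1]
    exact div_ne_zero hz0 hz'0
  have e2 : w / (M * w + 1) = -1 / (N * z) := by
    rw [e1, hw]
    field_simp
  have h1 := hg w hwim
  have h3 : fz g w = 0 := by
    rw [hg0]
    rfl
  rw [h3, e2, hW z hz, hW z' hz'im, e1] at h1
  have h4 : N * z ^ 2 * (fz f z' + fz f z) = 0 := by
    have h5 : ((z / z') ^ 2)⁻¹ = z' ^ 2 / z ^ 2 := by
      field_simp
    rw [h5] at h1
    have h6 : (0 : ℂ) = -(c * (N * z' ^ 2)) * (fz f z' + fz f z) := by
      rw [h1]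
      field_simp
      ring
    have h7 : fz f z' + fz f z = 0 := by
      rcases mul_eq_zero.1 h6.symm with h | h
      · exact absurd h (neg_ne_zero.2 (mul_ne_zero hc (mul_ne_zero hN0 (pow_ne_zero 2 hz'0))))
      · exact h
    rw [h7, mul_zero]
  rcases mul_eq_zero.1 h4 with h | h
  · exact absurd h (mul_ne_zero hN0 (pow_ne_zero 2 hz0))
  · linear_combination h

theorem hN4W (hA8 : A8W) (hN2 : StN2) (hN3 : StN3) : N4W := by
  intro w n f hw hn hf hR z hz
  obtain ⟨m, rfl⟩ : ∃ m, n = m + 1 := ⟨n - 1, by omega⟩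
  have hc : (w : ℂ) ≠ 0 := by
    rcases hw with h | h <;> rw [h] <;> norm_num
  exact core hN2 hN3 (w : ℂ) hc m (by omega) (2 ^ (m + 1)) (pow_succ' 2 m) f hf.hecke hf.new
    (hA8 w (2 ^ (m + 1)) inferInstance f hw hR) z hz

end Pool.Agent.Helper8.TT
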